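import Pool.Agent.H79.QF.Targets

set_option autoImplicit false

open Finset Matrix

namespace Pool.Agent.H27.QF

open Pool.Agent.H79.QF

theorem phase_real {s : ℕ} (Q : GQ s) (v : Fin s → Prop) (i : Q.basis) :
    ∃ e : ℝ, (e = 1 ∨ e = -1) ∧ Q.phase v i = (e : ℂ) := by
  classical
  unfold GQ.phase
  refine Finset.prod_induction (fun u => if v u then (-1 : ℂ) else 1)
    (fun z : ℂ => ∃ e : ℝ, (e = 1 ∨ e = -1) ∧ z = (e : ℂ)) ?_ ?_ ?_
  · rintro a b ⟨e, he, rfl⟩ ⟨f, hf, rfl⟩
    refine ⟨e * f, ?_, by push_cast; rfl⟩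
    rcases he with rfl | rfl <;> rcases hf with rfl | rfl <;> norm_num
  · exact ⟨1, Or.inl rfl, by norm_num⟩
  · intro u _
    by_cases h : v u
    · exact ⟨-1, Or.inr rfl, by simp [h]⟩
    · exact ⟨1, Or.inl rfl, by simp [h]⟩

theorem phase_congr {s : ℕ} (Q : GQ s) (v v' : Fin s → Prop) (i : Q.basis)
    (h : ¬ ∃ u ∈ Q.ask i, ¬ (v u ↔ v' u)) : Q.phase v i = Q.phase v' i := by
  classical
  push Not at h
  unfold GQ.phase
  refine Finset.prod_congr rfl fun u hu => ?_
  by_cases h1 : v u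
  · rw [if_pos h1, if_pos ((h u hu).1 h1)]
  · rw [if_neg h1, if_neg fun h2 => h1 ((h u hu).2 h2)]

theorem unitary_ip {ι : Type} [Fintype ι] [DecidableEq ι] (U : Matrix ι ι ℂ)
    (hU : U ∈ Matrix.unitaryGroup ι ℂ) (x y : ι → ℂ) :
    ∑ i, star ((U *ᵥ x) i) * (U *ᵥ y) i = ∑ i, star (x i) * y i := by
  have h1 : star (U *ᵥ x) ⬝ᵥ (U *ᵥ y) = star x ⬝ᵥ y := by
    rw [Matrix.star_mulVec, Matrix.dotProduct_mulVec, Matrix.vecMul_vecMul]
    have h2 : Uᴴ * U = 1 := by
      have := Matrix.mem_unitaryGroup_iff'.1 hU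
      rwa [Matrix.star_eq_conjTranspose] at this
    rw [h2, Matrix.vecMul_one]
  exact h1

theorem pf_STP : T_STP := by
  classical
  intro s Q v v' j
  have h1 : Q.ip v v' (j + 1) =
      ∑ i, (star (Q.phase v i * Q.state v j i) * (Q.phase v' i * Q.state v' j i)).re := by
    have h := unitary_ip (Q.U (j + 1)) (Q.unitary (j + 1))
      (fun i => Q.phase v i * Q.state v j i) (fun i => Q.phase v' i * Q.state v' j i)
    have h' := congrArg Complex.re h
    rw [Complex.re_sum, Complex.re_sum] at h'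
    exact h'
  have h2 : Q.ip v v' (j + 1) - Q.ip v v' j =
      ∑ i, ((star (Q.phase v i * Q.state v j i) * (Q.phase v' i * Q.state v' j i)).re -
        (star (Q.state v j i) * Q.state v' j i).re) := by
    rw [h1, Finset.sum_sub_distrib]
    rfl
  rw [h2, Finset.mul_sum]
  refine (Finset.abs_sum_le_sum_abs _ _).trans (Finset.sum_le_sum fun i _ => ?_)
  obtain ⟨e, he, hp⟩ := phase_real Q v i
  obtain ⟨f, hf, hq⟩ := phase_real Q v' i
  have h3 : (star (Q.phase v i * Q.state v j i) * (Q.phase v' i * Q.state v' j i)).re =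
      (e * f) * (star (Q.state v j i) * Q.state v' j i).re := by
    rw [hp, hq]
    have : star ((e : ℂ) * Q.state v j i) * ((f : ℂ) * Q.state v' j i) =
        ((e * f : ℝ) : ℂ) * (star (Q.state v j i) * Q.state v' j i) := by
      rw [star_mul']
      have : star (e : ℂ) = (e : ℂ) := Complex.conj_ofReal e
      rw [this]
      push_cast
      ring
    rw [this, Complex.re_ofReal_mul]
  rw [h3]
  by_cases h : ∃ u ∈ Q.ask i, ¬ (v u ↔ v' u)
  · rw [if_pos h]
    have h4 : |(star (Q.state v j i) * Q.state v' j i).re| ≤ ‖Q.state v j i‖ * ‖Q.state v' j i‖ := by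
      refine (Complex.abs_re_le_norm _).trans ?_
      rw [norm_mul, norm_star]
    have h5 : e * f * (star (Q.state v j i) * Q.state v' j i).re -
        (star (Q.state v j i) * Q.state v' j i).re =
        (e * f - 1) * (star (Q.state v j i) * Q.state v' j i).re := by ring
    rw [h5, abs_mul]
    have h6 : |e * f - 1| ≤ 2 := by
      rcases he with rfl | rfl <;> rcases hf with rfl | rfl <;> norm_num
    exact mul_le_mul h6 h4 (abs_nonneg _) (by norm_num)
  · rw [if_neg h]
    have h7 := phase_congr Q v v' i h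
    rw [hp, hq] at h7
    have h8 : e = f := by exact_mod_cast h7
    have h9 : e * f = 1 := by
      rw [← h8]
      rcases he with rfl | rfl <;> norm_num
    rw [h9, one_mul, sub_self, abs_zero, mul_zero]

end Pool.Agent.H27.QF
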